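import Pool.Agent.Helper79.GS.St1

/-!
# Module LOC of project GS (MP_c2d095_lc)

The value of the game depends only on the history in the set of boards which can still be reached.
-/

set_option autoImplicit false

namespace Pool.Agent.Helper40.GS

open Pool.Agent.Helper79.GS Pool.Agent.Helper19.SK

private lemma rch_trans {P : Type} {A : Arena P} {b x y : P} {k l : ℕ} (h1 : Rch A b k x) (h2 : Rch A x l y) :
    Rch A b (k + l) y := by
  induction h2 with
  | refl => exact h1
  | rev l c x' y' _ hm1 hm2 ih => exact Rch.rev _ c _ _ ih hm1 hm2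
  | irr l c x' y' _ hm1 hm2 ih => exact Rch.irr _ c _ _ ih hm1 hm2

private lemma mw_iff {P : Type} [Finite P] (A : Arena P) (H : Set P) (ps c : Bool) (b : P) :
    MW A H ps c b ↔ (ps = true ∧ ahead A c b) ∨ (ps = false ∧ ¬ MW A H true (!c) b) ∨
      ∃ b', A.mv c b b' ∧ b' ∉ H ∧ ¬ MW A (insert b' H) false (!c) b' := by
  rw [MW]
  simp only [exists_prop]

theorem hLOC : StLOC := by
  intro P _ A H H' ps c b h
  suffices key : ∀ n : ℕ, ∀ (H H' : Set P) (ps c : Bool) (b : P),
      2 * (Hᶜ).ncard + (if ps = true then 0 else 1) = n → (∀ k x, Rch A b k x → (x ∈ H ↔ x ∈ H')) →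
      (MW A H ps c b ↔ MW A H' ps c b) from key _ H H' ps c b rfl h
  intro n
  induction n using Nat.strong_induction_on with
  | _ n ih =>
  intro H H' ps c b hn h
  rw [mw_iff A H, mw_iff A H']
  refine or_congr Iff.rfl (or_congr ?_ ?_)
  · cases ps with
    | true => simp
    | false =>
      have h1 : 2 * (Hᶜ).ncard < n := by
        simp only [Bool.false_eq_true, if_false] at hn
        omega
      have h2 := ih (2 * (Hᶜ).ncard) h1 H H' true (!c) b (by simp) h
      rw [h2]
  · refine exists_congr fun b' => ?_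
    refine and_congr_right fun hm => ?_
    obtain ⟨k, hk⟩ : ∃ k, Rch A b k b' := by
      by_cases h1 : A.mv (!c) b' b
      · exact ⟨0, Rch.rev 0 c b b' Rch.refl hm h1⟩
      · exact ⟨1, Rch.irr 0 c b b' Rch.refl hm h1⟩
    rw [h k b' hk]
    refine and_congr_right fun hb => not_congr ?_
    have hb' : b' ∉ H := fun h1 => hb ((h k b' hk).mp h1)
    have hlt : ((insert b' H)ᶜ).ncard < (Hᶜ).ncard := by
      refine Set.ncard_lt_ncard ?_ (Set.toFinite _)
      refine ⟨fun x hx hxH => hx (Or.inr hxH), fun hcon => ?_⟩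
      exact hcon (show b' ∈ Hᶜ from hb') (Or.inl rfl)
    refine ih (2 * ((insert b' H)ᶜ).ncard + (if false = true then 0 else 1)) ?_ (insert b' H) (insert b' H') false
      (!c) b' rfl ?_
    · rw [← hn]
      simp only [Bool.false_eq_true, if_false]
      omega
    · intro l x hx
      have h3 := h _ x (rch_trans hk hx)
      simp only [Set.mem_insert_iff, h3]

end Pool.Agent.Helper40.GS
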